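import Pool.Agent.Helper35.PI.St1

/-! PI module OP2. -/

namespace Helper98.PI

open Helper35.PI
open scoped BigOperators

theorem hOP2 (h : StOP1) : StOP2 := by
  intro n hn V _ _ B hB htr w
  have h1 := h n hn V B hB htr (fun j => ∑ k, inner ℝ (B j k) (w k))
  have h2 : ∑ j, (∑ k, inner ℝ (B j k) (w k) : ℝ) ^ 2 =
      ∑ k, inner ℝ (∑ j, (∑ l, inner ℝ (B j l) (w l) : ℝ) • B k j) (w k) := by
    have e1 : ∀ k, inner ℝ (∑ j, (∑ l, inner ℝ (B j l) (w l) : ℝ) • B k j) (w k) =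
        ∑ j, (∑ l, inner ℝ (B j l) (w l) : ℝ) * inner ℝ (B j k) (w k) := by
      intro k
      rw [sum_inner]
      refine Finset.sum_congr rfl ?_
      intro j _
      rw [real_inner_smul_left, hB k j]
    simp only [e1]
    rw [Finset.sum_comm]
    refine Finset.sum_congr rfl ?_
    intro j _
    rw [← Finset.mul_sum, pow_two]
  have h3 : ∑ k, inner ℝ (∑ j, (∑ l, inner ℝ (B j l) (w l) : ℝ) • B k j) (w k) ≤
      ∑ k, ‖∑ j, (∑ l, inner ℝ (B j l) (w l) : ℝ) • B k j‖ * ‖w k‖ :=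
    Finset.sum_le_sum fun k _ => real_inner_le_norm _ _
  have h4 := Finset.sum_mul_sq_le_sq_mul_sq (Finset.univ : Finset (Fin n))
    (fun k => ‖∑ j, (∑ l, inner ℝ (B j l) (w l) : ℝ) • B k j‖) (fun k => ‖w k‖)
  have hp : (0 : ℝ) ≤ ((n : ℝ) - 1) / n := by
    have : (2 : ℝ) ≤ n := by exact_mod_cast hn
    refine div_nonneg (by linarith) (by linarith)
  have hBn : (0 : ℝ) ≤ ∑ i, ∑ j, ‖B i j‖ ^ 2 :=
    Finset.sum_nonneg fun i _ => Finset.sum_nonneg fun j _ => sq_nonneg _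
  have hW : (0 : ℝ) ≤ ∑ k, ‖w k‖ ^ 2 := Finset.sum_nonneg fun k _ => sq_nonneg _
  have hS : (0 : ℝ) ≤ ∑ j, (∑ k, inner ℝ (B j k) (w k) : ℝ) ^ 2 :=
    Finset.sum_nonneg fun k _ => sq_nonneg _
  generalize (∑ j, (∑ k, inner ℝ (B j k) (w k) : ℝ) ^ 2) = S at *
  generalize (∑ k, ‖∑ j, (∑ l, inner ℝ (B j l) (w l) : ℝ) • B k j‖ ^ 2) = P at *
  generalize (∑ k, inner ℝ (∑ j, (∑ l, inner ℝ (B j l) (w l) : ℝ) • B k j) (w k)) = X at *
  generalize (∑ k, ‖∑ j, (∑ l, inner ℝ (B j l) (w l) : ℝ) • B k j‖ * ‖w k‖) = Y at *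
  generalize (∑ k, ‖w k‖ ^ 2) = W at *
  generalize (∑ i, ∑ j, ‖B i j‖ ^ 2) = C at *
  rcases hS.eq_or_lt with h0 | h0
  · rw [← h0]
    positivity
  · have h5 : S ^ 2 ≤ P * W := by
      have : S ^ 2 ≤ Y ^ 2 := by
        have h6 : S ≤ Y := by rw [h2]; exact h3
        exact pow_le_pow_left₀ hS h6 2
      exact this.trans h4
    have h6 : P * W ≤ ((n : ℝ) - 1) / n * C * S * W := mul_le_mul_of_nonneg_right h1 hW
    have h7 : S * S ≤ S * (((n : ℝ) - 1) / n * C * W) := by nlinarith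
    exact le_of_mul_le_mul_left h7 h0

end Helper98.PI
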