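import Pool.Agent.Helper35.PI.St3

/-!
Module SA of project PI (MP_b2fa09_gt): evolution inequality for `c|H|² - |A|²`.
-/

namespace Helper98.PI

open Helper35.PI
open scoped BigOperators

theorem hSA (hT3 : StT3) (hLL4 : StLL4) : StSA := by
  intro n N A T c ε hA hT hε hc hc3 hXle
  have hLL : Sq A ≤ 3 / 2 * XX A ^ 2 := hLL4 n N A hA
  have hT3' := hT3 n N T hT
  have hX0 : 0 ≤ XX A := by
    unfold XX
    exact Finset.sum_nonneg fun i _ => Finset.sum_nonneg fun j _ => by positivity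
  have hY0 : 0 ≤ YY A := by unfold YY; positivity
  have hZ0 : 0 ≤ ZZ A := by
    unfold ZZ
    exact Finset.sum_nonneg fun i _ => Finset.sum_nonneg fun j _ => by positivity
  have hE0 : 0 ≤ ∑ k, ‖et T k‖ ^ 2 := Finset.sum_nonneg fun k _ => by positivity
  have h1 : c * ∑ k, ‖et T k‖ ^ 2 ≤ ∑ i, ∑ j, ∑ k, ‖T i j k‖ ^ 2 :=
    le_trans (mul_le_mul_of_nonneg_right hc3 hE0) hT3'
  have h2 : -3 * XX A ^ 2 ≤ c * hY A T - hX A T := by
    have hcZ : 0 ≤ c * ZZ A := mul_nonneg hc hZ0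
    have e : c * hY A T - hX A T
        = 2 * (∑ i, ∑ j, ∑ k, ‖T i j k‖ ^ 2 - c * ∑ k, ‖et T k‖ ^ 2)
          + 2 * (c * ZZ A) - 2 * Sq A := by
      unfold hY Helper35.PI.hX
      ring
    rw [e]
    nlinarith [h1, hcZ, hLL]
  have h3 : XX A ≤ c * YY A := by nlinarith [mul_nonneg hε.le hY0, hXle]
  have h4 : ε * YY A ≤ c * YY A - XX A := by nlinarith [hXle]
  have h5 : 3 * XX A ^ 2 ≤ (3 * c ^ 2 / ε) * YY A * (c * YY A - XX A) := by
    have h6 : (3 * c ^ 2 / ε) * YY A * (ε * YY A) ≤ (3 * c ^ 2 / ε) * YY A * (c * YY A - XX A) :=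
      mul_le_mul_of_nonneg_left h4 (by positivity)
    have h7 : (3 * c ^ 2 / ε) * YY A * (ε * YY A) = 3 * (c * YY A) ^ 2 := by
      field_simp
    have h8 : XX A ^ 2 ≤ (c * YY A) ^ 2 := pow_le_pow_left₀ hX0 h3 2
    linarith
  have h9 : -(3 * c ^ 2 / ε) * YY A * (c * YY A - XX A)
      = -((3 * c ^ 2 / ε) * YY A * (c * YY A - XX A)) := by ring
  rw [h9]
  linarith

end Helper98.PI
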